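import Pool.Agent.K3h47.TW.Stm

/-!
# TW brick BASE (helper47): projective space times projective space
-/

set_option autoImplicit false

namespace Pool.Agent.K3h33.TW

open MvPolynomial Pool.Agent.K3h47.TW

section

variable {N N' : ℕ}

/-- the bidegrees of the coordinates -/
def wt (N N' : ℕ) : Fin (N + 1) ⊕ Fin (N' + 1) → ℕ × ℕ :=
  Sum.elim (fun _ => (1, 0)) (fun _ => (0, 1))

/-- `Φ` is bihomogeneous of bidegree `(a, b)` -/
def Bi (a b : ℕ) (Φ : MvPolynomial (Fin (N + 1) ⊕ Fin (N' + 1)) ℂ) : Prop :=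
  IsWeightedHomogeneous (wt N N') Φ (a, b)

lemma weight_wt (m : (Fin (N + 1) ⊕ Fin (N' + 1)) →₀ ℕ) :
    Finsupp.weight (wt N N') m = (∑ k, m (Sum.inl k), ∑ j, m (Sum.inr j)) := by
  rw [Finsupp.weight_apply, Finsupp.sum_fintype _ _ fun i => by simp, Fintype.sum_sum_type]
  have e1 : (∑ k : Fin (N + 1), m (Sum.inl k) • wt N N' (Sum.inl k)) =
      (∑ k, m (Sum.inl k), 0) := by
    ext
    · simp [wt, Prod.fst_sum]
    · simp [wt, Prod.snd_sum]
  have e2 : (∑ j : Fin (N' + 1), m (Sum.inr j) • wt N N' (Sum.inr j)) =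
      (0, ∑ j, m (Sum.inr j)) := by
    ext
    · simp [wt, Prod.fst_sum]
    · simp [wt, Prod.snd_sum]
  rw [e1, e2]
  simp

lemma Bi.sec {c : ℕ} {G : Fin c → MvPolynomial (Fin (N + 1) ⊕ Fin (N' + 1)) ℂ} {κ : ℤ} {a b : ℕ}
    {Φ : MvPolynomial (Fin (N + 1) ⊕ Fin (N' + 1)) ℂ} (h : Bi a b Φ)
    {e : Fin (N + 1) ⊕ Fin (N' + 1) → ℤ} (ha : (a : ℤ) = ∑ k, e (Sum.inl k))
    (hb : (b : ℤ) = ∑ j, e (Sum.inr j)) : (baseCone N N' c G κ).IsSection e Φ := by
  intro m hm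
  have h1 := h (mem_support_iff.1 hm)
  rw [weight_wt, Prod.mk.injEq] at h1
  obtain ⟨h1, h2⟩ := h1
  have h1' : ∑ k, (m (Sum.inl k) : ℤ) = a := by exact_mod_cast h1
  have h2' : ∑ j, (m (Sum.inr j) : ℤ) = b := by exact_mod_cast h2
  show (∑ k, ((m (Sum.inl k) : ℤ) - e (Sum.inl k)) = 0) ∧
    (∑ j, ((m (Sum.inr j) : ℤ) - e (Sum.inr j)) = 0)
  rw [Finset.sum_sub_distrib, Finset.sum_sub_distrib, h1', h2', ha, hb]
  exact ⟨sub_self _, sub_self _⟩

lemma Bi.mul {a b a' b' : ℕ} {Φ Ψ : MvPolynomial (Fin (N + 1) ⊕ Fin (N' + 1)) ℂ} (h : Bi a b Φ)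
    (h' : Bi a' b' Ψ) : Bi (a + a') (b + b') (Φ * Ψ) :=
  IsWeightedHomogeneous.mul h h'

lemma Bi.inl (k : Fin (N + 1)) :
    Bi 1 0 (X (Sum.inl k) : MvPolynomial (Fin (N + 1) ⊕ Fin (N' + 1)) ℂ) :=
  isWeightedHomogeneous_X ℂ (wt N N') (Sum.inl k)

lemma Bi.inr (j : Fin (N' + 1)) :
    Bi 0 1 (X (Sum.inr j) : MvPolynomial (Fin (N + 1) ⊕ Fin (N' + 1)) ℂ) :=
  isWeightedHomogeneous_X ℂ (wt N N') (Sum.inr j)

lemma Bi.inl_pow (k : Fin (N + 1)) (n : ℕ) :
    Bi n 0 (X (Sum.inl k) ^ n : MvPolynomial (Fin (N + 1) ⊕ Fin (N' + 1)) ℂ) := by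
  induction n with
  | zero =>
    rw [pow_zero]
    exact isWeightedHomogeneous_one ℂ (wt N N')
  | succ n ih =>
    rw [pow_succ]
    exact ih.mul (Bi.inl k)

/-- a linear form in the first variables -/
noncomputable def lx (N' : ℕ) (v : Fin (N + 1) → ℂ) :
    MvPolynomial (Fin (N + 1) ⊕ Fin (N' + 1)) ℂ := ∑ k, C (v k) * X (Sum.inl k)

/-- a linear form in the second variables -/
noncomputable def ly (N : ℕ) (v : Fin (N' + 1) → ℂ) :
    MvPolynomial (Fin (N + 1) ⊕ Fin (N' + 1)) ℂ := ∑ j, C (v j) * X (Sum.inr j)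

lemma Bi.lx (v : Fin (N + 1) → ℂ) : Bi 1 0 (lx N' v) := by
  unfold Bi TW.lx
  refine IsWeightedHomogeneous.sum _ _ _ fun k _ => ?_
  have h := IsWeightedHomogeneous.mul (isWeightedHomogeneous_C (wt N N') (v k))
    (isWeightedHomogeneous_X ℂ (wt N N') (Sum.inl k))
  rw [zero_add] at h
  exact h

lemma Bi.ly (v : Fin (N' + 1) → ℂ) : Bi 0 1 (ly N v) := by
  unfold Bi TW.ly
  refine IsWeightedHomogeneous.sum _ _ _ fun k _ => ?_
  have h := IsWeightedHomogeneous.mul (isWeightedHomogeneous_C (wt N N') (v k))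
    (isWeightedHomogeneous_X ℂ (wt N N') (Sum.inr k))
  rw [zero_add] at h
  exact h

lemma eval_lx (p : Fin (N + 1) ⊕ Fin (N' + 1) → ℂ) (v : Fin (N + 1) → ℂ) :
    eval p (lx N' v) = ∑ k, v k * p (Sum.inl k) := by
  unfold lx
  rw [map_sum]
  exact Finset.sum_congr rfl fun k _ => by rw [map_mul, eval_C, eval_X]

lemma eval_ly (p : Fin (N + 1) ⊕ Fin (N' + 1) → ℂ) (v : Fin (N' + 1) → ℂ) :
    eval p (ly N v) = ∑ k, v k * p (Sum.inr k) := by
  unfold ly
  rw [map_sum]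
  exact Finset.sum_congr rfl fun k _ => by rw [map_mul, eval_C, eval_X]

end

section

variable {σ : Type} [Fintype σ]

lemma der_mul (p v : σ → ℂ) (Φ Ψ : MvPolynomial σ ℂ) :
    derivative p v (Φ * Ψ) = eval p Φ * derivative p v Ψ + eval p Ψ * derivative p v Φ := by
  unfold derivative
  rw [Finset.mul_sum, Finset.mul_sum, ← Finset.sum_add_distrib]
  refine Finset.sum_congr rfl fun i _ => ?_
  rw [pderiv_mul, map_add, map_mul, map_mul]
  ring

lemma der_sum (p v : σ → ℂ) {ι : Type} (s : Finset ι) (Φ : ι → MvPolynomial σ ℂ) :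
    derivative p v (∑ k ∈ s, Φ k) = ∑ k ∈ s, derivative p v (Φ k) := by
  unfold derivative
  rw [Finset.sum_comm]
  refine Finset.sum_congr rfl fun i _ => ?_
  rw [map_sum, map_sum, Finset.sum_mul]

lemma der_CX (p v : σ → ℂ) (a : ℂ) (i : σ) : derivative p v (C a * X i) = a * v i := by
  classical
  unfold derivative
  rw [Finset.sum_eq_single i]
  · rw [pderiv_C_mul, pderiv_X_self, mul_one, eval_C]
  · intro j _ hj
    rw [pderiv_C_mul, pderiv_X_of_ne (Ne.symm hj), mul_zero, map_zero, zero_mul]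
  · intro h
    exact absurd (Finset.mem_univ i) h

lemma prod_zpow {ι : Type} (s : Finset ι) (u : ℂˣ) (f : ι → ℤ) :
    ∏ i ∈ s, u ^ f i = u ^ ∑ i ∈ s, f i := by
  classical
  induction s using Finset.induction_on with
  | empty => simp
  | insert i s hi ih => rw [Finset.prod_insert hi, Finset.sum_insert hi, zpow_add, ih]

end

lemma der_lx {N N' : ℕ} (p u : Fin (N + 1) ⊕ Fin (N' + 1) → ℂ) (v : Fin (N + 1) → ℂ) :
    derivative p u (lx N' v) = ∑ k, v k * u (Sum.inl k) := by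
  unfold lx
  rw [der_sum]
  exact Finset.sum_congr rfl fun k _ => der_CX p u (v k) (Sum.inl k)

lemma der_ly {N N' : ℕ} (p u : Fin (N + 1) ⊕ Fin (N' + 1) → ℂ) (v : Fin (N' + 1) → ℂ) :
    derivative p u (ly N v) = ∑ k, v k * u (Sum.inr k) := by
  unfold ly
  rw [der_sum]
  exact Finset.sum_congr rfl fun k _ => der_CX p u (v k) (Sum.inr k)

section

variable {N N' c : ℕ} {G : Fin c → MvPolynomial (Fin (N + 1) ⊕ Fin (N' + 1)) ℂ} {κ : ℤ}

lemma free_base {e : Fin (N + 1) ⊕ Fin (N' + 1) → ℤ} {a : ℕ} (ha : (a : ℤ) = ∑ k, e (Sum.inl k))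
    (hb : (1 : ℤ) = ∑ j, e (Sum.inr j)) : (baseCone N N' c G κ).Free e := by
  rintro p ⟨⟨k, hk⟩, ⟨j, hj⟩, -⟩
  refine ⟨X (Sum.inl k) ^ a * X (Sum.inr j), Bi.sec (a := a + 0) (b := 0 + 1)
    ((Bi.inl_pow k a).mul (Bi.inr j)) (by rw [add_zero]; exact ha)
    (by rw [zero_add]; exact_mod_cast hb), ?_⟩
  rw [map_mul, map_pow, eval_X, eval_X]
  exact mul_ne_zero (pow_ne_zero _ hk) hj

lemma points_base {e : Fin (N + 1) ⊕ Fin (N' + 1) → ℤ} {a : ℕ}
    (ha : ((a + 1 : ℕ) : ℤ) = ∑ k, e (Sum.inl k))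
    (hb : (1 : ℤ) = ∑ j, e (Sum.inr j)) : (baseCone N N' c G κ).SeparatesPoints e := by
  rintro p ⟨⟨k, hk⟩, ⟨j, hj⟩, -⟩ p' ⟨⟨k', hk'⟩, ⟨j', hj'⟩, -⟩ hcon
  by_cases hx : ∃ s : ℂ, ∀ k, p' (Sum.inl k) = s * p (Sum.inl k)
  · by_cases hy : ∃ q : ℂ, ∀ j, p' (Sum.inr j) = q * p (Sum.inr j)
    · exfalso
      obtain ⟨s, hs⟩ := hx
      obtain ⟨q, hq⟩ := hy
      have hs0 : s ≠ 0 := by
        rintro rfl
        exact hk' (by rw [hs, zero_mul])
      have hq0 : q ≠ 0 := by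
        rintro rfl
        exact hj' (by rw [hq, zero_mul])
      refine hcon ⟨Sum.elim (fun _ => Units.mk0 s hs0) (fun _ => Units.mk0 q hq0), ?_, ?_⟩
      · rintro ρ ⟨h1, h2⟩
        unfold character
        rw [Fintype.prod_sum_type]
        simp only [Sum.elim_inl, Sum.elim_inr]
        rw [prod_zpow, prod_zpow, h1, h2, zpow_zero, zpow_zero, mul_one]
      · rintro (i | i)
        · exact hs i
        · exact hq i
    · obtain ⟨w, hw1, hw2⟩ := Pool.Agent.K3h47.FU.exists_lf (x := fun j => p (Sum.inr j))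
        (y := fun j => p' (Sum.inr j)) hy
      refine ⟨ly N w * X (Sum.inl k') ^ (a + 1), Bi.sec (a := 0 + (a + 1)) (b := 1 + 0)
        ((Bi.ly w).mul (Bi.inl_pow k' (a + 1))) (by rw [zero_add]; exact ha)
        (by rw [add_zero]; exact_mod_cast hb), ?_, ?_⟩
      · rw [map_mul, eval_ly, hw1, zero_mul]
      · rw [map_mul, eval_ly, map_pow, eval_X]
        exact mul_ne_zero hw2 (pow_ne_zero _ hk')
  · obtain ⟨w, hw1, hw2⟩ := Pool.Agent.K3h47.FU.exists_lf (x := fun j => p (Sum.inl j))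
      (y := fun j => p' (Sum.inl j)) hx
    refine ⟨lx N' w * (X (Sum.inl k') ^ a * X (Sum.inr j')),
      Bi.sec (a := 1 + (a + 0)) (b := 0 + (0 + 1))
      ((Bi.lx w).mul ((Bi.inl_pow k' a).mul (Bi.inr j'))) (by rw [← ha]; push_cast; ring)
      (by rw [← hb]; norm_num), ?_, ?_⟩
    · rw [map_mul, eval_lx, hw1, zero_mul]
    · rw [map_mul, eval_lx, map_mul, map_pow, eval_X, eval_X]
      exact mul_ne_zero hw2 (mul_ne_zero (pow_ne_zero _ hk') hj')

lemma tangents_base {e : Fin (N + 1) ⊕ Fin (N' + 1) → ℤ} {a : ℕ}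
    (ha : ((a + 1 : ℕ) : ℤ) = ∑ k, e (Sum.inl k))
    (hb : (1 : ℤ) = ∑ j, e (Sum.inr j)) : (baseCone N N' c G κ).SeparatesTangents e := by
  rintro p ⟨⟨k, hk⟩, ⟨j, hj⟩, -⟩ v - hcon
  by_cases hx : ∃ s : ℂ, ∀ k, v (Sum.inl k) = s * p (Sum.inl k)
  · by_cases hy : ∃ q : ℂ, ∀ j, v (Sum.inr j) = q * p (Sum.inr j)
    · exfalso
      obtain ⟨s, hs⟩ := hx
      obtain ⟨q, hq⟩ := hy
      refine hcon ⟨Sum.elim (fun _ => s) (fun _ => q), ?_, ?_⟩
      · rintro ρ ⟨h1, h2⟩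
        rw [Fintype.sum_sum_type]
        simp only [Sum.elim_inl, Sum.elim_inr]
        rw [← Finset.sum_mul, ← Finset.sum_mul]
        have h1' : ∑ k, (ρ (Sum.inl k) : ℂ) = 0 := by exact_mod_cast h1
        have h2' : ∑ k, (ρ (Sum.inr k) : ℂ) = 0 := by exact_mod_cast h2
        rw [h1', h2', zero_mul, zero_mul, add_zero]
      · rintro (i | i)
        · exact hs i
        · exact hq i
    · obtain ⟨w, hw1, hw2⟩ := Pool.Agent.K3h47.FU.exists_lf (x := fun j => p (Sum.inr j))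
        (y := fun j => v (Sum.inr j)) hy
      refine ⟨ly N w * X (Sum.inl k) ^ (a + 1), Bi.sec (a := 0 + (a + 1)) (b := 1 + 0)
        ((Bi.ly w).mul (Bi.inl_pow k (a + 1))) (by rw [zero_add]; exact ha)
        (by rw [add_zero]; exact_mod_cast hb), ?_, ?_⟩
      · rw [map_mul, eval_ly, hw1, zero_mul]
      · rw [der_mul, eval_ly, hw1, zero_mul, zero_add, der_ly, map_pow, eval_X]
        exact mul_ne_zero (pow_ne_zero _ hk) hw2
  · obtain ⟨w, hw1, hw2⟩ := Pool.Agent.K3h47.FU.exists_lf (x := fun j => p (Sum.inl j))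
      (y := fun j => v (Sum.inl j)) hx
    refine ⟨lx N' w * (X (Sum.inl k) ^ a * X (Sum.inr j)),
      Bi.sec (a := 1 + (a + 0)) (b := 0 + (0 + 1))
      ((Bi.lx w).mul ((Bi.inl_pow k a).mul (Bi.inr j))) (by rw [← ha]; push_cast; ring)
      (by rw [← hb]; norm_num), ?_, ?_⟩
    · rw [map_mul, eval_lx, hw1, zero_mul]
    · rw [der_mul, eval_lx, hw1, zero_mul, zero_add, der_lx, map_mul, map_pow, eval_X, eval_X]
      exact mul_ne_zero (mul_ne_zero (pow_ne_zero _ hk) hj) hw2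

end

theorem t_BASE : S_BASE := by
  intro N N' c G κ
  have hdeg : ∀ e : Fin (N + 1) ⊕ Fin (N' + 1) → ℤ,
      (baseCone N N' c G κ).degree e = ((∑ k, e (Sum.inl k) : ℤ) : ℚ) := by
    intro e
    unfold Cone.degree
    rw [Fintype.sum_sum_type]
    simp [baseCone]
  have hom : ∀ e : Fin (N + 1) ⊕ Fin (N' + 1) → ℤ,
      (baseCone N N' c G κ).omega e = ∑ j, e (Sum.inr j) := by
    intro e
    unfold Cone.omega
    rw [Fintype.sum_sum_type]
    simp [baseCone]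
  refine ⟨?_, ?_, ?_, 1, one_ne_zero, ?_, ?_⟩
  · rintro ρ ⟨h1, -⟩
    rw [hdeg, h1, Int.cast_zero]
  · rintro ρ ⟨-, h2⟩
    rw [hom, h2]
  · rw [hom]
    show ∑ j : Fin (N' + 1), (Pi.single 0 1 : Fin (N' + 1) → ℤ) j = 1
    rw [Finset.sum_pi_single']
    simp
  · rintro (i | i)
    · exact ⟨1, by simp [baseCone]⟩
    · exact ⟨0, by simp [baseCone]⟩
  · intro e he
    rw [hom] at he
    have hK : (baseCone N N' c G κ).degree (e - (baseCone N N' c G κ).K) =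
        ((∑ k, e (Sum.inl k) : ℤ) : ℚ) - κ := by
      rw [hdeg]
      have h1 : ∑ k : Fin (N + 1), (e - (baseCone N N' c G κ).K) (Sum.inl k) =
          ∑ k, e (Sum.inl k) - κ := by
        simp only [Pi.sub_apply, Finset.sum_sub_distrib]
        congr 1
        show ∑ j : Fin (N + 1), (Pi.single 0 κ : Fin (N + 1) → ℤ) j = κ
        rw [Finset.sum_pi_single']
        simp
      rw [h1]
      push_cast
      rfl
    rw [hK]
    constructor
    · intro h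
      have h1 : (0 : ℚ) ≤ ((∑ k, e (Sum.inl k) : ℤ) : ℚ) := by
        push_cast at h ⊢
        linarith
      have h2 : 0 ≤ ∑ k, e (Sum.inl k) := by exact_mod_cast h1
      obtain ⟨a, ha⟩ := Int.eq_ofNat_of_zero_le h2
      exact free_base ha.symm he.symm
    · intro h
      have h1 : (1 : ℚ) ≤ ((∑ k, e (Sum.inl k) : ℤ) : ℚ) := by
        push_cast at h ⊢
        linarith
      have h2 : 1 ≤ ∑ k, e (Sum.inl k) := by exact_mod_cast h1
      obtain ⟨a, ha⟩ := Int.eq_ofNat_of_zero_le (sub_nonneg.2 h2)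
      have ha' : ((a + 1 : ℕ) : ℤ) = ∑ k, e (Sum.inl k) := by
        push_cast
        linarith
      exact ⟨free_base ha' he.symm, points_base ha' he.symm, tangents_base ha' he.symm⟩

end Pool.Agent.K3h33.TW
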